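import Pool.Agent.Lib.MP_7a59f9_co.RowsB
import Pool.Agent.Lib.MP_7a59f9_co.DefsAll

/-!
A new upper bound for the size of `r`-wise qualitatively independent families, `r ≥ 4`.
-/

namespace Pool.Agent.Results.MP_7a59f9_co.AllStrengths

open Pool.Agent.MP_7a59f9_co

/-- For every `r ≥ 4` and all sufficiently large `n`, an `r`-wise qualitatively independent family of subsets
of an `n`-element set has at most `2 ^ (rateAll r * n / 2 ^ r)` members. -/
theorem result : ∀ r ≥ 4, ∃ n₀ : ℕ, ∀ n ≥ n₀, ∀ (m : ℕ) (A : Fin m → Finset (Fin n)), QI r A →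
    (m : ℝ) ≤ (2 : ℝ) ^ (rateAll r * n / 2 ^ r) := by
  intro r hr
  unfold rateAll
  split_ifs with h0 h1 h2 h3 h4 h5 h6 h7 h8
  · exact eff_bound r hr
  · exact r15 r (by omega)
  · exact r16 r (by omega)
  · exact r20 r (by omega)
  · exact r30 r (by omega)
  · exact r50 r (by omega)
  · exact r100 r (by omega)
  · exact r200 r (by omega)
  · exact r1000 r (by omega)
  · exact r10000 r (by omega)

end Pool.Agent.Results.MP_7a59f9_co.AllStrengths
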